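import Pool.Agent.HK.Defs

set_option autoImplicit false

namespace Pool.Agent.HK

/-- For a central projection `z` of `M`: the centre of the summand `zM` is diffuse, i.e. there is
no minimal nonzero central projection of `M` below `z`. -/
def IsDiffuse {B : Type} [NormedRing B] [NormedAlgebra ℂ B] [StarRing B] (M : Set B) (z : B) :
    Prop :=
  ∀ q, IsCentralProj M q → z * q = q → q ≠ 0 → ∃ r, IsCentralProj M r ∧ q * r = r ∧ r ≠ 0 ∧ r ≠ q

/-- `M` is a countable direct sum of properly infinite algebras, of homogeneous algebras of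
finite type I and of algebras with diffuse centre: there is a sequence of pairwise orthogonal
central projections of `M` with strong sum `1`, each of which is properly infinite (or zero), or
finite homogeneous of type I, or diffuse. -/
def IsPieceSum {H : Type} [NormedAddCommGroup H] [InnerProductSpace ℂ H] [CompleteSpace H]
    (M : VonNeumannAlgebra H) : Prop :=
  ∃ z : ℕ → (H →L[ℂ] H),
    (∀ j, IsCentralProj (M : Set (H →L[ℂ] H)) (z j)) ∧ (∀ i j, i ≠ j → z i * z j = 0) ∧
    SumsToOne z ∧
    ∀ j, IsPropInf (M : Set (H →L[ℂ] H)) (z j) ∨ IsHomFin (M : Set (H →L[ℂ] H)) (z j) ∨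
      IsDiffuse (M : Set (H →L[ℂ] H)) (z j)

end Pool.Agent.HK
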