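import Pool.Agent.HKD.Split

set_option autoImplicit false
set_option linter.unusedSectionVars false

/-! Existence of the decreasing sequences for commutative von Neumann algebras without minimal
projections. -/

namespace Pool.Agent.HK

open Filter Topology

variable {H : Type} [NormedAddCommGroup H] [InnerProductSpace ℂ H] [CompleteSpace H]

section comm

variable {N : VonNeumannAlgebra H} (hN : ∀ x ∈ N, ∀ y ∈ N, x * y = y * x)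

include hN

/-- the support of a vector -/
theorem hkd_supp (ξ : H) : ∃ s, PJ N s ∧ s ξ = ξ ∧ ∀ q, PJ N q → q ξ = 0 → q * s = 0 := by
  obtain ⟨P, hP, h1, h2⟩ := hkd_sup N {q | PJ N q ∧ q ξ = 0} fun q hq => hq.1
  refine ⟨1 - P, hP.one_sub', ?_, ?_⟩
  · show ξ - P ξ = ξ
    rw [h2 ξ fun q hq => hq.2, sub_zero]
  · intro q hq hξ
    rw [mul_sub, mul_one, hN q hq.1 P hP.1, h1 q ⟨hq, hξ⟩, sub_self]

variable {s : H → (H →L[ℂ] H)} (hs1 : ∀ ξ, PJ N (s ξ)) (hs2 : ∀ ξ, s ξ ξ = ξ)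
  (hs3 : ∀ ξ q, PJ N q → q ξ = 0 → q * s ξ = 0)

include hs1 hs2 hs3

theorem hkd_zorn {z : H →L[ℂ] H} (hz : PJ N z) :
    ∃ T : Set H, (∀ ξ ∈ T, z ξ = ξ) ∧ (∀ ξ ∈ T, ∀ η ∈ T, ξ ≠ η → s ξ * s η = 0) ∧
      ∀ r, PJ N r → (∀ ξ ∈ T, r * s ξ = 0) → r * z = 0 := by
  let 𝒯 : Set (Set H) := {T | (∀ ξ ∈ T, z ξ = ξ) ∧ ∀ ξ ∈ T, ∀ η ∈ T, ξ ≠ η → s ξ * s η = 0}
  obtain ⟨T, hT⟩ := zorn_subset 𝒯 (by
    intro c hc hch
    refine ⟨⋃₀ c, ⟨?_, ?_⟩, fun t ht => Set.subset_sUnion_of_mem ht⟩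
    · rintro ξ ⟨t, ht, hξ⟩
      exact (hc ht).1 ξ hξ
    · rintro ξ ⟨t, ht, hξ⟩ η ⟨u, hu, hη⟩ hne
      rcases hch.total ht hu with h | h
      · exact (hc hu).2 ξ (h hξ) η hη hne
      · exact (hc ht).2 ξ hξ η (h hη) hne)
  refine ⟨T, hT.prop.1, hT.prop.2, fun r hr hrT => ?_⟩
  by_contra hne
  have hex : ∃ x, (r * z) x ≠ 0 := by
    by_contra h
    push Not at h
    exact hne (hkd_ext h)
  obtain ⟨x, hx⟩ := hex
  set η : H := (r * z) x with hη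
  have hrz : r * z = z * r := hN _ hr.1 _ hz.1
  have h1 : z η = η := by
    rw [hη, hrz]
    exact hkd_app_sq hz.2 (r x)
  have h2 : r η = η := hkd_app_sq hr.2 (z x)
  have h3 : ∀ ξ ∈ T, s ξ * s η = 0 := by
    intro ξ hξ
    apply hs3 η (s ξ) (hs1 ξ)
    rw [← h2]
    have h4 : s ξ * r = 0 := by rw [hN _ (hs1 ξ).1 _ hr.1]; exact hrT ξ hξ
    rw [hkd_app h4]
    rfl
  have h5 : insert η T ∈ 𝒯 := by
    refine ⟨?_, ?_⟩
    · intro ξ hξ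
      rcases Set.mem_insert_iff.mp hξ with rfl | h
      · exact h1
      · exact hT.prop.1 ξ h
    · intro ξ hξ ζ hζ hne
      rcases Set.mem_insert_iff.mp hξ with h | h <;> rcases Set.mem_insert_iff.mp hζ with h' | h'
      · exact absurd (h.trans h'.symm) hne
      · rw [h, hN _ (hs1 η).1 _ (hs1 ζ).1]; exact h3 ζ h'
      · rw [h']; exact h3 ξ h
      · exact hT.prop.2 ξ h ζ h' hne
  have h6 : η ∈ T := hT.le_of_ge h5 (Set.subset_insert η T) (Set.mem_insert η T)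
  apply hx
  rw [← h2]
  have h7 := hrT η h6
  have h8 : r (s η η) = 0 := by rw [hkd_app h7]; rfl
  rwa [hs2] at h8

/-- global splitting -/
theorem hkd_gsplit {z : H →L[ℂ] H}
    (hno : ∀ q, PJ N q → z * q = q → q ≠ 0 → ∃ r, PJ N r ∧ q * r = r ∧ r ≠ 0 ∧ r ≠ q)
    {T : Set H} (hT : ∀ ξ ∈ T, ∀ η ∈ T, ξ ≠ η → s ξ * s η = 0)
    {p : H →L[ℂ] H} (hp : PJ N p) (hzp : z * p = p) :
    ∃ f, PJ N f ∧ p * f = f ∧ (∀ ξ ∈ T, ‖f ξ‖ ^ 2 ≤ 2 / 3 * ‖p ξ‖ ^ 2) ∧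
      ∀ ξ ∈ T, ‖(p - f) ξ‖ ^ 2 ≤ 2 / 3 * ‖p ξ‖ ^ 2 := by
  have hloc : ∀ ξ, ∃ f, PJ N f ∧ (p * s ξ) * f = f ∧ ‖f ξ‖ ^ 2 ≤ 2 / 3 * ‖(p * s ξ) ξ‖ ^ 2 ∧
      ‖(p * s ξ - f) ξ‖ ^ 2 ≤ 2 / 3 * ‖(p * s ξ) ξ‖ ^ 2 := by
    intro ξ
    have hps : PJ N (p * s ξ) := hp.mul hN (hs1 ξ)
    refine hkd_split hN (p * s ξ) hps ξ ?_ ?_
    · intro q hq hpq hqξ
      have h1 := hs3 ξ q hq hqξ
      have h2 : q * s ξ = q := by
        have e : s ξ * q = q := by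
          rw [← hpq, ← mul_assoc, ← mul_assoc, hN _ (hs1 ξ).1 _ hp.1, mul_assoc p,
            (hs1 ξ).2.isIdempotentElem.eq]
        rw [hN _ hq.1 _ (hs1 ξ).1, e]
      rw [← h2, h1]
    · intro q hq hpq hq0
      refine hno q hq ?_ hq0
      rw [← hpq, ← mul_assoc, ← mul_assoc, hzp]
  choose f hf1 hf2 hf3 hf4 using hloc
  have hps : ∀ ξ, (p * s ξ) ξ = p ξ := fun ξ => by
    show p (s ξ ξ) = p ξ
    rw [hs2]
  have hsf : ∀ ξ, s ξ * f ξ = f ξ := by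
    intro ξ
    conv_lhs => rw [← hf2 ξ]
    rw [← mul_assoc, ← mul_assoc, hN _ (hs1 ξ).1 _ hp.1, mul_assoc p,
      (hs1 ξ).2.isIdempotentElem.eq, hf2]
  have hfs : ∀ ξ, f ξ * s ξ = f ξ := fun ξ => by rw [hN _ (hf1 ξ).1 _ (hs1 ξ).1, hsf]
  have hpf : ∀ ξ, f ξ * p = f ξ := by
    intro ξ
    rw [hN _ (hf1 ξ).1 _ hp.1]
    conv_lhs => rw [← hf2 ξ]
    rw [← mul_assoc, ← mul_assoc, hp.2.isIdempotentElem.eq, hf2]
  obtain ⟨F, hF, hF1, hF2⟩ := hkd_sup N (f '' T) (by rintro _ ⟨ξ, _, rfl⟩; exact hf1 ξ)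
  have hFp : F * p = F := by
    have h1 : F * (1 - p) = 0 := by
      apply hkd_ext
      intro x
      show F ((1 - p) x) = 0
      apply hF2
      rintro _ ⟨ξ, _, rfl⟩
      have h2 : f ξ * (1 - p) = 0 := by rw [mul_sub, mul_one, hpf, sub_self]
      rw [hkd_app h2]; rfl
    rw [mul_sub, mul_one, sub_eq_zero] at h1
    exact h1.symm
  have hFs : ∀ ξ ∈ T, F * s ξ = f ξ := by
    intro ξ hξ
    have h1 : F * (s ξ - f ξ) = 0 := by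
      apply hkd_ext
      intro x
      show F ((s ξ - f ξ) x) = 0
      apply hF2
      rintro _ ⟨η, hη, rfl⟩
      have h2 : f η * (s ξ - f ξ) = 0 := by
        by_cases h : η = ξ
        · subst h
          rw [mul_sub, hfs, (hf1 η).2.isIdempotentElem.eq, sub_self]
        · have h3 : f η * s ξ = 0 := by
            rw [← hfs η, mul_assoc, hT η hη ξ hξ h, mul_zero]
          have h4 : f η * f ξ = 0 := by
            rw [← hsf ξ, ← mul_assoc, h3, zero_mul]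
          rw [mul_sub, h3, h4, sub_self]
      rw [hkd_app h2]; rfl
    have h5 : F * f ξ = f ξ := hF1 _ ⟨ξ, hξ, rfl⟩
    rw [mul_sub, h5, sub_eq_zero] at h1
    exact h1
  have hFξ : ∀ ξ ∈ T, F ξ = f ξ ξ := by
    intro ξ hξ
    rw [← hFs ξ hξ]
    show F ξ = F (s ξ ξ)
    rw [hs2]
  refine ⟨F, hF, by rw [hN _ hp.1 _ hF.1, hFp], ?_, ?_⟩
  · intro ξ hξ
    have := hf3 ξ
    rwa [hps, ← hFξ ξ hξ] at this
  · intro ξ hξ
    have := hf4 ξ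
    have e : (p * s ξ - f ξ) ξ = (p - F) ξ := by
      show (p * s ξ) ξ - f ξ ξ = p ξ - F ξ
      rw [hps, hFξ ξ hξ]
    rwa [hps, e] at this

end comm

/-- the decreasing sequence of a character -/
theorem hkd_diffuse {N : VonNeumannAlgebra H} (hN : ∀ x ∈ N, ∀ y ∈ N, x * y = y * x)
    (z : RM N hN) (hz : Pr (inc N hN) z)
    (hno : ∀ q, PJ N q → inc N hN z * q = q → q ≠ 0 → ∃ r, PJ N r ∧ q * r = r ∧ r ≠ 0 ∧ r ≠ q)
    (χ : RM N hN →ₐ[ℂ] ℂ) (hχ : χ z = 1) :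
    ∃ p : ℕ → RM N hN, p 0 = z ∧ (∀ n, Pr (inc N hN) (p n)) ∧ (∀ n, χ (p n) = 1) ∧
      (∀ n, p n * p (n + 1) = p (n + 1)) ∧
      ∀ x : H, Tendsto (fun n => inc N hN (p n) x) atTop (𝓝 0) := by
  classical
  have hzPJ : PJ N (inc N hN z) := ⟨z.2, (pr_iff N hN).mp hz⟩
  have hsupp := fun ξ : H => hkd_supp hN ξ
  choose s hs1 hs2 hs3 using hsupp
  obtain ⟨T, hT1, hT2, hT3⟩ := hkd_zorn hN hs1 hs2 hs3 hzPJ
  have hstep : ∀ p : {p : RM N hN // Pr (inc N hN) p ∧ χ p = 1 ∧ z * p = p},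
      ∃ q : {p : RM N hN // Pr (inc N hN) p ∧ χ p = 1 ∧ z * p = p},
        p.1 * q.1 = q.1 ∧ ∀ ξ ∈ T, ‖inc N hN q.1 ξ‖ ^ 2 ≤ 2 / 3 * ‖inc N hN p.1 ξ‖ ^ 2 := by
    rintro ⟨p, hp1, hp2, hp3⟩
    have hp : PJ N (inc N hN p) := ⟨p.2, (pr_iff N hN).mp hp1⟩
    obtain ⟨f, hf1, hf2, hf3, hf4⟩ := hkd_gsplit hN hs1 hs2 hs3 hno hT2 hp
      (by rw [← map_mul, hp3])
    let f' : RM N hN := ⟨f, hf1.1⟩
    have hf' : Pr (inc N hN) f' := (pr_iff N hN).mpr hf1.2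
    have hpf : p * f' = f' := inc_inj N hN (by rw [map_mul]; exact hf2)
    rcases hkd_char_zero_one hf' χ with h | h
    · refine ⟨⟨f', hf', h, ?_⟩, hpf, hf3⟩
      rw [← hpf, ← mul_assoc, hp3]
    · have hq : p - f' = p * (1 - f') := by rw [mul_sub, mul_one, hpf]
      refine ⟨⟨p - f', ?_, ?_, ?_⟩, ?_, ?_⟩
      · rw [hq]; exact hp1.mul hf'.one_sub
      · rw [hq, map_mul, hp2, h, one_mul]
      · rw [mul_sub, hp3, ← hpf, ← mul_assoc, hp3]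
      · show p * (p - f') = p - f'
        rw [mul_sub, hp1.1, hpf]
      · intro ξ hξ
        have := hf4 ξ hξ
        show ‖inc N hN (p - f') ξ‖ ^ 2 ≤ _
        rw [map_sub]
        exact this
  choose nx hnx1 hnx2 using hstep
  let P : ℕ → {p : RM N hN // Pr (inc N hN) p ∧ χ p = 1 ∧ z * p = p} := fun n =>
    nx^[n] ⟨z, hz, hχ, hz.1⟩
  have hP : ∀ n, P (n + 1) = nx (P n) := fun n => Function.iterate_succ_apply' _ _ _
  have hP0 : (P 0).1 = z := rfl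
  have hmul : ∀ n, (P n).1 * (P (n + 1)).1 = (P (n + 1)).1 := fun n => by
    rw [hP]; exact hnx1 _
  have hPPJ : ∀ n, PJ N (inc N hN (P n).1) := fun n => ⟨(P n).1.2, (pr_iff N hN).mp (P n).2.1⟩
  refine ⟨fun n => (P n).1, hP0, fun n => (P n).2.1, fun n => (P n).2.2.1, hmul, ?_⟩
  obtain ⟨Q, hQ, hQlim, hQp⟩ := hkd_lim N (fun n => inc N hN (P n).1) hPPJ (fun n => by
    show inc N hN (P n).1 * inc N hN (P (n + 1)).1 = _
    rw [← map_mul, hmul])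
  have hdec : ∀ ξ ∈ T, ∀ n, ‖inc N hN (P n).1 ξ‖ ^ 2 ≤ (2 / 3) ^ n * ‖ξ‖ ^ 2 := by
    intro ξ hξ n
    induction n with
    | zero =>
      rw [hP0, pow_zero, one_mul, hT1 ξ hξ]
    | succ n ih =>
      rw [hP]
      calc _ ≤ 2 / 3 * ‖inc N hN (P n).1 ξ‖ ^ 2 := hnx2 _ ξ hξ
        _ ≤ 2 / 3 * ((2 / 3) ^ n * ‖ξ‖ ^ 2) := by gcongr
        _ = _ := by ring
  have hQξ : ∀ ξ ∈ T, Q ξ = 0 := by
    intro ξ hξ
    have h1 : Tendsto (fun n => ‖inc N hN (P n).1 ξ‖ ^ 2) atTop (𝓝 (‖Q ξ‖ ^ 2)) :=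
      ((hQlim ξ).norm).pow 2
    have h2 : Tendsto (fun n : ℕ => (2 / 3 : ℝ) ^ n * ‖ξ‖ ^ 2) atTop (𝓝 (0 * ‖ξ‖ ^ 2)) :=
      (tendsto_pow_atTop_nhds_zero_of_lt_one (by norm_num) (by norm_num)).mul_const _
    rw [zero_mul] at h2
    have h3 := le_of_tendsto_of_tendsto' h1 h2 (hdec ξ hξ)
    have h4 : ‖Q ξ‖ ^ 2 = 0 := le_antisymm h3 (by positivity)
    exact norm_eq_zero.mp (pow_eq_zero_iff two_ne_zero |>.mp h4)
  have hQs : ∀ ξ ∈ T, Q * s ξ = 0 := fun ξ hξ => hs3 ξ Q hQ (hQξ ξ hξ)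
  have hQz := hT3 Q hQ hQs
  have hzQ : inc N hN z * Q = Q := by
    have := hQp 0
    rwa [hP0] at this
  have hQ0 : Q = 0 := by
    rw [← hzQ, hN _ hzPJ.1 _ hQ.1, hQz]
  intro x
  have := hQlim x
  rwa [hQ0] at this

end Pool.Agent.HK
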