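import Pool.Agent.HKD.Diff
import Pool.Agent.HKD.Defs

set_option autoImplicit false
set_option linter.unusedSectionVars false

namespace Pool.Agent.HK

variable {H : Type} [NormedAddCommGroup H] [InnerProductSpace ℂ H] [CompleteSpace H]

theorem hkd_thin (M : VonNeumannAlgebra H) (z : ZA M) (hz : Pr (inc _ (cen_comm M)) z)
    (h : IsDiffuse (M : Set (H →L[ℂ] H)) (inc _ _ z)) : Thin ((io M).comp (ic M)) z := by
  intro χ hχ
  have hcp : ∀ q : H →L[ℂ] H, PJ (cen M) q ↔ IsCentralProj (M : Set (H →L[ℂ] H)) q := by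
    intro q
    constructor
    · rintro ⟨h1, h2⟩
      exact ⟨(mem_cen.mp h1).1, h2, fun a ha =>
        (VonNeumannAlgebra.mem_commutant_iff.mp (mem_cen.mp h1).2 a ha).symm⟩
    · rintro ⟨h1, h2, h3⟩
      exact ⟨mem_cen.mpr ⟨h1, VonNeumannAlgebra.mem_commutant_iff.mpr fun g hg => (h3 g hg).symm⟩,
        h2⟩
  refine hkd_diffuse (cen_comm M) z hz ?_ χ hχ
  intro q hq hzq hq0
  obtain ⟨r, hr, h1, h2, h3⟩ := h q ((hcp q).mp hq) hzq hq0
  exact ⟨r, (hcp r).mpr hr, h1, h2, h3⟩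

theorem hkd_vn_main (M : VonNeumannAlgebra H) (hM : IsPieceSum M)
    (X : Submodule ℂ (H →L[ℂ] H)) (hXcl : IsClosed (X : Set (H →L[ℂ] H)))
    (hXc : ∀ x ∈ X, IsCompactOperator x) (hX : ∀ a ∈ M, ∀ x ∈ X, a * x ∈ X ∧ x * a ∈ X)
    {n : ℕ} {C : ℝ} (hC : 0 ≤ C)
    {φ : List (RA M) → (H →L[ℂ] H)} (h : Coch X (n + 1) C φ)
    (hcy : ∀ l, D (io M) φ l = 0) :
    ∃ ψ : List (RA M) → (H →L[ℂ] H), Coch X n (KT n * C * 2) ψ ∧
      ∀ l, D (io M) ψ l = φ l := by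
  obtain ⟨z, hz1, hz2, hz3, hz4⟩ := hM
  let z' : ℕ → ZA M := fun j => ⟨z j, mem_cen.mpr ⟨(hz1 j).1,
    VonNeumannAlgebra.mem_commutant_iff.mpr fun g hg => ((hz1 j).2.2 g hg).symm⟩⟩
  have hpr : ∀ j, Pr (inc _ (cen_comm M)) (z' j) := fun j =>
    (pr_iff _ _).mpr (hz1 j).2.1
  have hseq : OrthSeq ((io M).comp (ic M)) z' := by
    refine ⟨hpr, fun i j hij => ?_⟩
    apply inc_inj
    rw [map_mul, map_zero]
    exact hz2 i j hij
  refine hkd_vanish (c := ic M) (ι := io M) (vn_hasSums M) (ic_central M) (ic_norm M) (io_norm M)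
    (vn_P1 _ (cen_comm M)) ⟨fun a x hx => (hX _ a.2 x hx).1, fun a x hx => (hX _ a.2 x hx).2⟩
    hXcl hXc hseq (fun x => hz3 x) (fun j => ?_) hC h hcy
  rcases hz4 j with h | h | h
  · exact Or.inl (pinf_of M (z' j) (hpr j) h)
  · exact Or.inr (Or.inl (homog_of M (z' j) h))
  · exact Or.inr (Or.inr (hkd_thin M (z' j) (hpr j) h))

open Classical in
theorem hkd_final (m : ℕ) (M : VonNeumannAlgebra H) (hM : IsPieceSum M)
    (X : Submodule ℂ (H →L[ℂ] H)) (hXcl : IsClosed (X : Set (H →L[ℂ] H)))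
    (hXc : ∀ x ∈ X, IsCompactOperator x) (hX : ∀ a ∈ M, ∀ x ∈ X, a * x ∈ X ∧ x * a ∈ X)
    (φ : (Fin (m + 1) → (H →L[ℂ] H)) → (H →L[ℂ] H)) (C : ℝ) (hC : 0 ≤ C)
    (h1 : ∀ a : Fin (m+1) → (H →L[ℂ] H), (∀ j, a j ∈ M) →
        ∀ (i : Fin (m+1)) (x y : H →L[ℂ] H), x ∈ M → y ∈ M → ∀ c : ℂ,
          φ (Function.update a i (c • x + y)) =
            c • φ (Function.update a i x) + φ (Function.update a i y))
    (h2 : ∀ a : Fin (m+1) → (H →L[ℂ] H), (∀ j, a j ∈ M) → ‖φ a‖ ≤ C * ∏ j, ‖a j‖)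
    (h3 : ∀ a : Fin (m+1) → (H →L[ℂ] H), (∀ j, a j ∈ M) → φ a ∈ X)
    (h4 : ∀ a : Fin (m+2) → (H →L[ℂ] H), (∀ j, a j ∈ M) →
        a 0 * φ (Fin.tail a)
          + ∑ i : Fin (m+1), ((-1 : ℂ) ^ ((i : ℕ) + 1)) •
              φ (fun j : Fin (m+1) => if (j : ℕ) < (i : ℕ) then a (Fin.castSucc j)
                else if j = i then a (Fin.castSucc j) * a (Fin.succ j) else a (Fin.succ j))
          + ((-1 : ℂ) ^ (m + 2)) • (φ (Fin.init a) * a (Fin.last (m+1))) = 0) :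
    ∃ ψ : (Fin m → (H →L[ℂ] H)) → (H →L[ℂ] H),
        (∀ a : Fin m → (H →L[ℂ] H), (∀ j, a j ∈ M) →
          ∀ (i : Fin m) (x y : H →L[ℂ] H), x ∈ M → y ∈ M → ∀ c : ℂ,
            ψ (Function.update a i (c • x + y)) =
              c • ψ (Function.update a i x) + ψ (Function.update a i y)) ∧
        (∀ a : Fin m → (H →L[ℂ] H), (∀ j, a j ∈ M) → ‖ψ a‖ ≤ KT m * C * 2 * ∏ j, ‖a j‖) ∧
        (∀ a : Fin m → (H →L[ℂ] H), (∀ j, a j ∈ M) → ψ a ∈ X) ∧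
        (∀ a : Fin (m+1) → (H →L[ℂ] H), (∀ j, a j ∈ M) →
          a 0 * ψ (Fin.tail a)
            + ∑ i : Fin m, ((-1 : ℂ) ^ ((i : ℕ) + 1)) •
                ψ (fun j : Fin m => if (j : ℕ) < (i : ℕ) then a (Fin.castSucc j)
                  else if j = i then a (Fin.castSucc j) * a (Fin.succ j) else a (Fin.succ j))
            + ((-1 : ℂ) ^ (m + 1)) • (ψ (Fin.init a) * a (Fin.last m)) = φ a) := by
  obtain ⟨Ψ, hΨ, hD⟩ := hkd_vn_main M hM X hXcl hXc hX hC (toL_coch M φ X hC h1 h2 h3)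
    (toL_cocycle M φ h4)
  let ψ : (Fin m → (H →L[ℂ] H)) → (H →L[ℂ] H) := fun a =>
    if h : ∀ j, a j ∈ M then Ψ (List.ofFn fun j => (⟨a j, h j⟩ : RA M)) else 0
  have hψ : ∀ b : Fin m → RA M, ψ (fun j => io M (b j)) = Ψ (List.ofFn b) := by
    intro b
    have hb : ∀ j, io M (b j) ∈ M := fun j => (b j).2
    exact dif_pos hb
  have hlift : ∀ {k : ℕ} (a : Fin k → (H →L[ℂ] H)), (∀ j, a j ∈ M) →
      ∃ b : Fin k → RA M, a = fun j => io M (b j) := fun a ha =>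
    ⟨fun j => ⟨a j, ha j⟩, rfl⟩
  refine ⟨ψ, ?_, ?_, ?_, ?_⟩
  · intro a ha i x y hx hy t
    obtain ⟨b, rfl⟩ := hlift a ha
    let x' : RA M := ⟨x, hx⟩
    let y' : RA M := ⟨y, hy⟩
    have e : ∀ w : RA M, Function.update (fun j => io M (b j)) i (io M w) =
        fun j => io M (Function.update b i w j) := by
      intro w
      funext j
      by_cases hj : j = i
      · subst hj; simp
      · simp [Function.update_of_ne hj]
    have ex : x = io M x' := rfl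
    have ey : y = io M y' := rfl
    rw [ex, ey, ← map_smul, ← map_add, e, e, e, hψ, hψ, hψ, ofFn_update, ofFn_update, ofFn_update]
    exact hΨ.lin _ _ _ _ _
  · intro a ha
    obtain ⟨b, rfl⟩ := hlift a ha
    rw [hψ]
    refine (hΨ.bd _).trans (le_of_eq ?_)
    rw [nm_ofFn]
    rfl
  · intro a ha
    obtain ⟨b, rfl⟩ := hlift a ha
    rw [hψ]
    exact hΨ.val _
  · intro a ha
    obtain ⟨b, rfl⟩ := hlift a ha
    have h5 := hD (List.ofFn b)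
    rw [toL_ofFn, D_ofFn] at h5
    rw [← h5]
    simp only [← hψ, io_contr]
    rfl

end Pool.Agent.HK
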