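import Pool.Agent.HK.Final

set_option autoImplicit false
set_option linter.unusedSectionVars false

/-! Pieces with diffuse centre: every character of the centre is a limit of central projections
which tend strongly to zero, so the infinite normalisation of `Pool.Agent.HK` applies to it. -/

namespace Pool.Agent.HK

open Filter Topology

variable {H : Type} [NormedAddCommGroup H] [InnerProductSpace ℂ H] [CompleteSpace H]
variable {Z R : Type} [NormedCommRing Z] [NormedAlgebra ℂ Z] [NormedRing R] [NormedAlgebra ℂ R]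
  {c : Z →ₐ[ℂ] R} {ι : R →ₐ[ℂ] (H →L[ℂ] H)}

/-- abstract form of a piece with diffuse centre: every character which is one at `z` is one at
the members of a sequence of projections decreasing strongly to zero -/
def Thin (κ : Z →ₐ[ℂ] (H →L[ℂ] H)) (z : Z) : Prop :=
  ∀ χ : Z →ₐ[ℂ] ℂ, χ z = 1 → ∃ p : ℕ → Z, p 0 = z ∧ (∀ n, Pr κ (p n)) ∧ (∀ n, χ (p n) = 1) ∧
    (∀ n, p n * p (n + 1) = p (n + 1)) ∧ ∀ x : H, Tendsto (fun n => κ (p n) x) atTop (𝓝 0)

theorem hkd_char_zero_one {κ : Z →ₐ[ℂ] (H →L[ℂ] H)} {r : Z} (hr : Pr κ r) (χ : Z →ₐ[ℂ] ℂ) :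
    χ r = 1 ∨ χ (1 - r) = 1 := by
  by_cases h : χ r = 0
  · right
    rw [map_sub, map_one, h, sub_zero]
  · exact Or.inl (char_proj hr χ h)

/-- the orthogonal sequence adapted to a character of a diffuse piece -/
theorem hkd_seq {κ : Z →ₐ[ℂ] (H →L[ℂ] H)} {z : Z} (S : Thin κ z)
    (χ : Z →ₐ[ℂ] ℂ) (hχ : χ z = 1) :
    ∃ w : ℕ → Z, OrthSeq κ w ∧ (∀ x : H, HasSum (fun j => κ (w j) x) x) ∧ ∀ j, χ (w j) = 0 := by
  obtain ⟨p, hp0, hpr, hpχ, hpm, hpt⟩ := S χ hχ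
  have hle : ∀ i k, p i * p (i + k) = p (i + k) := by
    intro i k
    induction k with
    | zero => exact (hpr i).1
    | succ k ih => rw [← add_assoc, ← hpm (i + k), ← mul_assoc, ih]
  let w : ℕ → Z := fun j => match j with
    | 0 => 1 - p 0
    | j + 1 => p j - p (j + 1)
  have hw0 : w 0 = 1 - p 0 := rfl
  have hws : ∀ j, w (j + 1) = p j - p (j + 1) := fun j => rfl
  have hwsm : ∀ j, w (j + 1) = p j * (1 - p (j + 1)) := by
    intro j
    rw [hws, mul_sub, mul_one, hpm]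
  have hwpr : ∀ j, Pr κ (w j) := by
    intro j
    cases j with
    | zero => exact (hpr 0).one_sub
    | succ j => rw [hwsm]; exact (hpr j).mul (hpr (j + 1)).one_sub
  have hsum : ∀ N, ∑ j ∈ Finset.range (N + 1), w j = 1 - p N := by
    intro N
    induction N with
    | zero => simp [hw0]
    | succ N ih => rw [Finset.sum_range_succ, ih, hws]; ring
  have hwp : ∀ N j, w (N + 1 + j) * p N = w (N + 1 + j) := by
    intro N j
    have e : N + 1 + j = (N + j) + 1 := by ring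
    rw [e, hws, sub_mul, mul_comm (p (N + j)), hle, mul_comm (p (N + j + 1)), add_assoc, hle]
  have hwp' : ∀ j, w j * p j = 0 := by
    intro j
    cases j with
    | zero => rw [hw0, sub_mul, one_mul, (hpr 0).1, sub_self]
    | succ j => rw [hws, sub_mul, hpm, (hpr (j + 1)).1, sub_self]
  have horth : ∀ i j, i < j → w i * w j = 0 := by
    intro i j hij
    obtain ⟨k, rfl⟩ := Nat.exists_eq_add_of_le (Nat.succ_le_of_lt hij)
    rw [← hwp i k, ← mul_assoc, mul_comm (w i), mul_assoc, hwp', mul_zero]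
  have hO : OrthSeq κ w := by
    refine ⟨hwpr, fun i j hij => ?_⟩
    rcases lt_or_gt_of_ne hij with h | h
    · exact horth i j h
    · rw [mul_comm]; exact horth j i h
  have hκw : ∀ (F : Finset ℕ) (x : H), ∑ j ∈ F, κ (w j) x = κ (sZ w F) x := by
    intro F x
    unfold sZ
    rw [map_sum]
    simp
  refine ⟨w, hO, fun x => ?_, fun j => ?_⟩
  · have hsm : Summable (fun j => κ (w j) x) := by
      rw [summable_iff_vanishing_norm]
      intro ε hε
      have h1 := (Metric.tendsto_atTop.mp (hpt x)) ε hε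
      obtain ⟨N, hN⟩ := h1
      refine ⟨Finset.range (N + 1), fun t ht => ?_⟩
      rw [hκw]
      have e1 : sZ w t * p N = sZ w t := by
        unfold sZ
        rw [Finset.sum_mul]
        refine Finset.sum_congr rfl fun j hj => ?_
        have hjN : N + 1 ≤ j := by
          by_contra h
          push Not at h
          exact (Finset.disjoint_left.mp ht hj) (Finset.mem_range.mpr h)
        obtain ⟨k, rfl⟩ := Nat.exists_eq_add_of_le hjN
        exact hwp N k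
      rw [← e1, map_mul]
      have h2 := hN N le_rfl
      rw [dist_zero_right] at h2
      calc _ ≤ ‖κ (sZ w t)‖ * ‖κ (p N) x‖ := ContinuousLinearMap.le_opNorm _ _
        _ ≤ 1 * ‖κ (p N) x‖ := by
            gcongr
            exact (hO.sZ_pr t).norm_ι_le
        _ < ε := by rw [one_mul]; exact h2
    have h3 : Tendsto (fun N => ∑ j ∈ Finset.range N, κ (w j) x) atTop (𝓝 x) := by
      rw [← tendsto_add_atTop_iff_nat 1]
      have e : (fun N => ∑ j ∈ Finset.range (N + 1), κ (w j) x) = fun N => x - κ (p N) x := by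
        funext N
        rw [hκw]
        unfold sZ
        rw [hsum, map_sub, map_one]
        rfl
      rw [e]
      have := (tendsto_const_nhds (x := x)).sub (hpt x)
      rwa [sub_zero] at this
    have h4 := hsm.hasSum.tendsto_sum_nat
    have h5 := tendsto_nhds_unique h4 h3
    have h6 := hsm.hasSum
    rw [h5] at h6
    exact h6
  · cases j with
    | zero => rw [hw0, map_sub, map_one, hpχ, sub_self]
    | succ j => rw [hws, map_sub, hpχ, hpχ, sub_self]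

/-- a diffuse piece is fine at every character -/
theorem hkd_fine (hS : HasSums ι) (hc : ∀ z a, c z * a = a * c z)
    (hcn : ∀ z, ‖c z‖ = ‖z‖) (hι : ∀ a, ‖ι a‖ = ‖a‖)
    {X : Submodule ℂ (H →L[ℂ] H)} (hX : IsBimod ι X) (hXcl : IsClosed (X : Set (H →L[ℂ] H)))
    (hXc : ∀ x ∈ X, IsCompactOperator x) {z : Z}
    (S : Thin (ι.comp c) z) (χ : Z →ₐ[ℂ] ℂ) (hχ : χ z = 1)
    {n : ℕ} {C : ℝ} (hC : 0 ≤ C) {φ : List R → (H →L[ℂ] H)} (h : Coch X (n + 1) C φ)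
    (hcy : ∀ l, D ι φ l = 0) (δ : ℝ) (hδ : 0 < δ) :
    ∃ r, Pr (ι.comp c) r ∧ χ r = 1 ∧ Fine ι X n (KN n * C) δ φ (c r) := by
  have hιle : ∀ a, ‖ι a‖ ≤ ‖a‖ := fun a => (hι a).le
  have hKC : 0 ≤ KN n * C := mul_nonneg (KN_nonneg n) hC
  have hC1 : 0 ≤ C1 n * C := mul_nonneg (C1_nonneg n) hC
  obtain ⟨w, hw, hsum, hχw⟩ := hkd_seq S χ hχ
  obtain ⟨ψ₀, hψ₀, hv1, hvz⟩ := inf_normalised hw hS hcn hι hX hXcl hXc n hC h hcy
  have hc1 : ∀ l, D ι (fun l => φ l - D ι ψ₀ l) l = 0 := cocycle_sub hcy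
  have h1 : Coch X (n + 1) (C1 n * C) (fun l => φ l - D ι ψ₀ l) :=
    (h.sub (hψ₀.D ι hX hιle hKC)).mono (le_of_eq (by unfold C1; ring))
  obtain ⟨N, hN⟩ := tail_fine hw hS hc hι hX hXc hsum hC1 h1 hc1 hv1 hvz δ hδ
  refine ⟨rZ w N, hw.rZ_pr N, ?_, ?_⟩
  · unfold rZ sZ
    rw [map_sub, map_one, map_sum]
    simp [hχw]
  · have := hN.of_sub hX hι hKC hψ₀ (hw.rZ_pr N).toR (hc _)
    rwa [zero_add] at this

theorem hkd_step [CompleteSpace Z] (hS : HasSums ι) (hc : ∀ z a, c z * a = a * c z)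
    (hcn : ∀ z, ‖c z‖ = ‖z‖) (hι : ∀ a, ‖ι a‖ = ‖a‖)
    (hP1 : ∀ χ : Z →ₐ[ℂ] ℂ, ∀ b, χ b = 0 → ∀ ε : ℝ, 0 < ε →
      ∃ r, Pr (ι.comp c) r ∧ χ r = 1 ∧ ‖b * r‖ ≤ ε)
    {X : Submodule ℂ (H →L[ℂ] H)} (hX : IsBimod ι X) (hXcl : IsClosed (X : Set (H →L[ℂ] H)))
    (hXc : ∀ x ∈ X, IsCompactOperator x)
    {z : ℕ → Z} (hz : OrthSeq (ι.comp c) z) (hsum : ∀ x : H, HasSum (fun j => ι (c (z j)) x) x)
    (hpiece : ∀ j, Nonempty (PInf c ι (z j)) ∨ Nonempty (Homog c (H →L[ℂ] H) (z j)) ∨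
      Thin (ι.comp c) (z j))
    {n : ℕ} {C : ℝ} (hC : 0 ≤ C) {φ : List R → (H →L[ℂ] H)} (h : Coch X (n + 1) C φ)
    (hcy : ∀ l, D ι φ l = 0) (δ : ℝ) (hδ : 0 < δ) :
    ∃ ψ : List R → (H →L[ℂ] H), Coch X n (KT n * C) ψ ∧
      Coch X (n + 1) δ (fun l => φ l - D ι ψ l) := by
  have hιle : ∀ a, ‖ι a‖ ≤ ‖a‖ := fun a => (hι a).le
  have hKC : 0 ≤ KN n * C := mul_nonneg (KN_nonneg n) hC
  have hC1 : 0 ≤ C1 n * C := mul_nonneg (C1_nonneg n) hC
  have hKH := KH_nonneg n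
  obtain ⟨ψ₀, hψ₀, hv1, hvz⟩ := inf_normalised hz hS hcn hι hX hXcl hXc n hC h hcy
  set φ₁ : List R → (H →L[ℂ] H) := fun l => φ l - D ι ψ₀ l with hφ₁
  have hc1 : ∀ l, D ι φ₁ l = 0 := cocycle_sub hcy
  have h1 : Coch X (n + 1) (C1 n * C) φ₁ :=
    (h.sub (hψ₀.D ι hX hιle hKC)).mono (le_of_eq (by unfold C1; ring))
  have hn1 : (0 : ℝ) ≤ (n : ℝ) + 1 := by positivity
  obtain ⟨ψ', hψ', herr⟩ := step hc hcn hι hX hC1 h1 hc1 δ hδ
    ((((n : ℝ) + 1) + KH n) * (C1 n * C)) (by positivity) (by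
      intro χ
      by_cases hex : ∃ j, χ (z j) ≠ 0
      · obtain ⟨j, hj⟩ := hex
        have hj1 : χ (z j) = 1 := char_proj (hz.pr j) χ hj
        rcases hpiece j with ⟨⟨S⟩⟩ | ⟨⟨S⟩⟩ | S
        · refine ⟨z j, hz.pr j, hj1, ?_⟩
          refine (prism_fine hS hι hX hXc hC1 h1 hc1 (c (z j)) (hz.pr j).toR (hc _) S.v S.w S.wv
            S.vz S.zw S.nv S.nw S.pr S.orth δ hδ).weak ?_
          have : 0 ≤ KH n * (C1 n * C) := mul_nonneg hKH hC1
          linarith [add_mul ((n : ℝ) + 1) (KH n) (C1 n * C)]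
        · obtain ⟨r, hr, hχr, hf⟩ := homog_fine hS hc hcn hι hP1 hX hXc (hz.pr j) S χ hj1 hC1 h1
            hc1 δ hδ
          refine ⟨r, hr, hχr, hf.weak ?_⟩
          have : 0 ≤ ((n : ℝ) + 1) * (C1 n * C) := mul_nonneg hn1 hC1
          linarith [add_mul ((n : ℝ) + 1) (KH n) (C1 n * C)]
        · obtain ⟨r, hr, hχr, hf⟩ := hkd_fine hS hc hcn hι hX hXcl hXc S χ hj1 hC1 h1
            hc1 δ hδ
          refine ⟨r, hr, hχr, hf.weak ?_⟩
          have e1 : KN n ≤ KH n := by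
            unfold KH
            have : 0 ≤ (1 + 2 ^ n) * (KN n * C1 n) :=
              mul_nonneg (by positivity) (mul_nonneg (KN_nonneg n) (C1_nonneg n))
            linarith
          refine mul_le_mul_of_nonneg_right ?_ hC1
          linarith
      · push Not at hex
        obtain ⟨N, hN⟩ := tail_fine hz hS hc hι hX hXc hsum hC1 h1 hc1 hv1 hvz δ hδ
        refine ⟨rZ z N, hz.rZ_pr N, ?_, hN.weak (by positivity)⟩
        unfold rZ sZ
        rw [map_sub, map_one, map_sum]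
        simp [hex])
  refine ⟨fun l => ψ₀ l + ψ' l, (hψ₀.add hψ').mono (le_of_eq (by unfold KT; ring)), ?_⟩
  have hid : (fun l => φ l - D ι (fun l => ψ₀ l + ψ' l) l) = fun l => φ₁ l - D ι ψ' l := by
    funext l
    rw [D_add]
    simp only [hφ₁]
    abel
  rw [hid]
  exact herr

theorem hkd_vanish [CompleteSpace Z] (hS : HasSums ι) (hc : ∀ z a, c z * a = a * c z)
    (hcn : ∀ z, ‖c z‖ = ‖z‖) (hι : ∀ a, ‖ι a‖ = ‖a‖)
    (hP1 : ∀ χ : Z →ₐ[ℂ] ℂ, ∀ b, χ b = 0 → ∀ ε : ℝ, 0 < ε →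
      ∃ r, Pr (ι.comp c) r ∧ χ r = 1 ∧ ‖b * r‖ ≤ ε)
    {X : Submodule ℂ (H →L[ℂ] H)} (hX : IsBimod ι X) (hXcl : IsClosed (X : Set (H →L[ℂ] H)))
    (hXc : ∀ x ∈ X, IsCompactOperator x)
    {z : ℕ → Z} (hz : OrthSeq (ι.comp c) z) (hsum : ∀ x : H, HasSum (fun j => ι (c (z j)) x) x)
    (hpiece : ∀ j, Nonempty (PInf c ι (z j)) ∨ Nonempty (Homog c (H →L[ℂ] H) (z j)) ∨
      Thin (ι.comp c) (z j))
    {n : ℕ} {C : ℝ} (hC : 0 ≤ C) {φ : List R → (H →L[ℂ] H)} (h : Coch X (n + 1) C φ)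
    (hcy : ∀ l, D ι φ l = 0) :
    ∃ ψ : List R → (H →L[ℂ] H), Coch X n (KT n * C * 2) ψ ∧ ∀ l, D ι ψ l = φ l :=
  vanish hXcl (KT n) (fun _ _ hC h hcy δ hδ =>
    hkd_step hS hc hcn hι hP1 hX hXcl hXc hz hsum hpiece hC h hcy δ hδ) hC h hcy

end Pool.Agent.HK
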