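import Pool.Agent.HKD.Main2

set_option autoImplicit false
set_option linter.unusedSectionVars false

/-! Commutative von Neumann algebras without minimal projections: every character which is one
at `z` is the limit of projections decreasing strongly to zero. -/

namespace Pool.Agent.HK

open Filter Topology

variable {H : Type} [NormedAddCommGroup H] [InnerProductSpace ℂ H] [CompleteSpace H]

/-- a projection of `N` -/
def PJ (N : VonNeumannAlgebra H) (p : H →L[ℂ] H) : Prop := p ∈ N ∧ IsStarProjection p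

theorem hkd_app_sq {p : H →L[ℂ] H} (hp : IsStarProjection p) (x : H) : p (p x) = p x :=
  congrArg (fun T : H →L[ℂ] H => T x) hp.isIdempotentElem.eq

theorem hkd_app {p q r : H →L[ℂ] H} (h : p * q = r) (x : H) : p (q x) = r x :=
  congrArg (fun T : H →L[ℂ] H => T x) h

theorem hkd_inner {p : H →L[ℂ] H} (hp : IsStarProjection p) (x y : H) :
    inner ℂ (p x) y = inner ℂ x (p y) := by
  have h := hp.isSelfAdjoint
  rw [ContinuousLinearMap.isSelfAdjoint_iff'] at h
  rw [← ContinuousLinearMap.adjoint_inner_left, h]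

theorem hkd_ext {S T : H →L[ℂ] H} (h : ∀ x, S x = T x) : S = T := ContinuousLinearMap.ext h

/-- supremum of a family of projections -/
theorem hkd_sup (N : VonNeumannAlgebra H) (S : Set (H →L[ℂ] H)) (hS : ∀ q ∈ S, PJ N q) :
    ∃ P, PJ N P ∧ (∀ q ∈ S, P * q = q) ∧ ∀ y : H, (∀ q ∈ S, q y = 0) → P y = 0 := by
  let L : Submodule ℂ H :=
    { carrier := {y | ∀ q ∈ S, q y = 0}
      zero_mem' := fun q _ => map_zero q
      add_mem' := fun {x y} hx hy q hq => by rw [map_add, hx q hq, hy q hq, add_zero]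
      smul_mem' := fun c x hx q hq => by rw [map_smul, hx q hq, smul_zero] }
  have hL : ∀ y, y ∈ L ↔ ∀ q ∈ S, q y = 0 := fun y => Iff.rfl
  have hLc : IsClosed (L : Set H) := by
    have : (L : Set H) = ⋂ q ∈ S, {y | q y = 0} := by
      ext y
      simp only [Set.mem_iInter]
      exact Iff.rfl
    rw [this]
    exact isClosed_biInter fun q _ => isClosed_eq q.continuous continuous_const
  have : CompleteSpace L := hLc.completeSpace_coe
  have hr : IsStarProjection L.starProjection := isStarProjection_starProjection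
  have hrN : L.starProjection ∈ N := by
    rw [VonNeumannAlgebra.IsStarProjection.mem_iff hr N]
    intro y hy
    have hrange : (L.starProjection).range = L := Submodule.range_starProjection L
    rw [hrange, Module.End.mem_invtSubmodule]
    intro x hx
    show y x ∈ L
    rw [hL]
    intro q hq
    have h1 : y (q x) = q (y x) :=
      congrArg (fun T : H →L[ℂ] H => T x) (vn_commute (hS q hq).1 hy)
    rw [← h1, (hL x).mp hx q hq, map_zero]
  refine ⟨1 - L.starProjection, ⟨sub_mem (one_mem N) hrN, hr.one_sub⟩, ?_, ?_⟩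
  · intro q hq
    apply hkd_ext
    intro x
    show q x - L.starProjection (q x) = q x
    have h1 : L.starProjection (q x) = 0 := by
      rw [Submodule.starProjection_apply_eq_zero_iff, Submodule.mem_orthogonal]
      intro u hu
      rw [← hkd_inner (hS q hq).2, (hL u).mp hu q hq, inner_zero_left]
    rw [h1, sub_zero]
  · intro y hy
    show y - L.starProjection y = 0
    rw [Submodule.starProjection_eq_self_iff.mpr ((hL y).mpr hy), sub_self]

/-- the limit of a decreasing sequence of projections -/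
theorem hkd_lim (N : VonNeumannAlgebra H) (p : ℕ → H →L[ℂ] H) (hp : ∀ n, PJ N (p n))
    (hd : ∀ n, p n * p (n + 1) = p (n + 1)) :
    ∃ P, PJ N P ∧ (∀ x : H, Tendsto (fun n => p n x) atTop (𝓝 (P x))) ∧ ∀ n, p n * P = P := by
  have hd' : ∀ n, p (n + 1) * p n = p (n + 1) := by
    intro n
    have h := congrArg star (hd n)
    rwa [star_mul, (hp n).2.isSelfAdjoint.star_eq, (hp (n + 1)).2.isSelfAdjoint.star_eq] at h
  have hle : ∀ i k, p i * p (i + k) = p (i + k) := by
    intro i k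
    induction k with
    | zero => exact (hp i).2.isIdempotentElem.eq
    | succ k ih => rw [← add_assoc, ← hd (i + k), ← mul_assoc, ih]
  have hle' : ∀ i k, p (i + k) * p i = p (i + k) := by
    intro i k
    have h := congrArg star (hle i k)
    rwa [star_mul, (hp i).2.isSelfAdjoint.star_eq, (hp (i + k)).2.isSelfAdjoint.star_eq] at h
  let w : ℕ → H →L[ℂ] H := fun n => p n - p (n + 1)
  have hw : ∀ n, IsStarProjection (w n) := by
    intro n
    refine ⟨?_, (hp n).2.isSelfAdjoint.sub (hp (n + 1)).2.isSelfAdjoint⟩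
    show (p n - p (n + 1)) * (p n - p (n + 1)) = p n - p (n + 1)
    rw [mul_sub, sub_mul, sub_mul, (hp n).2.isIdempotentElem.eq, hd, hd',
      (hp (n + 1)).2.isIdempotentElem.eq]
    abel
  have hwn : ∀ n, ‖w n‖ ≤ 1 := by
    intro n
    exact IsStarProjection.norm_le (w n) (hw n)
  have horth1 : ∀ i j, i < j → w i * w j = 0 := by
    intro i j hij
    obtain ⟨k, rfl⟩ := Nat.exists_eq_add_of_le (Nat.succ_le_of_lt hij)
    have e1 : w (i + 1 + k) = p (i + 1) * w (i + 1 + k) := by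
      show p (i + 1 + k) - p (i + 1 + k + 1) = p (i + 1) * (p (i + 1 + k) - p (i + 1 + k + 1))
      rw [mul_sub, hle, add_assoc (i + 1), hle]
    have e2 : w i * p (i + 1) = 0 := by
      show (p i - p (i + 1)) * p (i + 1) = 0
      rw [sub_mul, hd, (hp (i + 1)).2.isIdempotentElem.eq, sub_self]
    show w i * w (i + 1 + k) = 0
    rw [e1, ← mul_assoc, e2, zero_mul]
  have horth : ∀ i j, i ≠ j → w i * w j = 0 := by
    intro i j hij
    rcases lt_or_gt_of_ne hij with h | h
    · exact horth1 i j h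
    · have h1 := congrArg star (horth1 j i h)
      rwa [star_mul, (hw i).isSelfAdjoint.star_eq, (hw j).isSelfAdjoint.star_eq, star_zero] at h1
  obtain ⟨T, hT1, hT2⟩ := exists_sum w w hw horth (fun j => (hw j).isIdempotentElem.eq)
    (fun j => (hw j).isIdempotentElem.eq) hwn
  have hsum : ∀ n x, ∑ j ∈ Finset.range n, w j x = p 0 x - p n x := by
    intro n x
    induction n with
    | zero => simp
    | succ n ih =>
      rw [Finset.sum_range_succ, ih]
      show p 0 x - p n x + (p n x - p (n + 1) x) = _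
      abel
  have hlim : ∀ x, Tendsto (fun n => p n x) atTop (𝓝 ((p 0 - T) x)) := by
    intro x
    have h1 := (hT2 x).tendsto_sum_nat
    have h2 : (fun n => p n x) = fun n => p 0 x - ∑ j ∈ Finset.range n, w j x := by
      funext n
      rw [hsum]
      abel
    rw [h2]
    exact tendsto_const_nhds.sub h1
  have hpP : ∀ n, p n * (p 0 - T) = p 0 - T := by
    intro n
    apply hkd_ext
    intro x
    have h1 : Tendsto (fun k => p n (p (k + n) x)) atTop (𝓝 (p n ((p 0 - T) x))) :=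
      ((p n).continuous.tendsto _).comp ((tendsto_add_atTop_iff_nat n).mpr (hlim x))
    have h2 : (fun k => p n (p (k + n) x)) = fun k => p (k + n) x := by
      funext k
      rw [add_comm k n]
      exact hkd_app (hle n k) x
    rw [h2] at h1
    exact tendsto_nhds_unique h1 ((tendsto_add_atTop_iff_nat n).mpr (hlim x))
  refine ⟨p 0 - T, ⟨?_, ?_, ?_⟩, hlim, hpP⟩
  · rw [vn_mem_iff]
    intro y hy
    apply hkd_ext
    intro x
    show y ((p 0 - T) x) = (p 0 - T) (y x)
    have h1 := (y.continuous.tendsto _).comp (hlim x)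
    have h2 : (fun n => p n (y x)) = y ∘ fun n => p n x := by
      funext n
      exact (hkd_app (vn_commute (hp n).1 hy) x).symm
    have h3 := hlim (y x)
    rw [h2] at h3
    exact tendsto_nhds_unique h1 h3
  · show (p 0 - T) * (p 0 - T) = p 0 - T
    apply hkd_ext
    intro x
    have h1 := hlim ((p 0 - T) x)
    have h2 : (fun n => p n ((p 0 - T) x)) = fun _ => (p 0 - T) x := by
      funext n
      exact hkd_app (hpP n) x
    rw [h2] at h1
    exact tendsto_nhds_unique h1 tendsto_const_nhds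
  · rw [ContinuousLinearMap.isSelfAdjoint_iff_isSymmetric]
    intro x y
    show inner ℂ ((p 0 - T) x) y = inner ℂ x ((p 0 - T) y)
    have h1 : Tendsto (fun n => inner ℂ (p n x) y) atTop (𝓝 (inner ℂ ((p 0 - T) x) y)) :=
      (hlim x).inner tendsto_const_nhds
    have h2 : Tendsto (fun n => inner ℂ x (p n y)) atTop (𝓝 (inner ℂ x ((p 0 - T) y))) :=
      tendsto_const_nhds.inner (hlim y)
    have h3 : (fun n => inner ℂ (p n x) y) = fun n => inner ℂ x (p n y) := by
      funext n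
      exact hkd_inner (hp n).2 x y
    rw [h3] at h1
    exact tendsto_nhds_unique h1 h2

theorem hkd_pyth {p f : H →L[ℂ] H} (hp : IsStarProjection p) (hf : IsStarProjection f)
    (hpf : p * f = f) (x : H) : ‖p x‖ ^ 2 = ‖f x‖ ^ 2 + ‖(p - f) x‖ ^ 2 := by
  have hfp : f * p = f := by
    have h := congrArg star hpf
    rwa [star_mul, hp.isSelfAdjoint.star_eq, hf.isSelfAdjoint.star_eq] at h
  have e1 : p x = f x + (p - f) x := by
    show p x = f x + (p x - f x)
    abel
  have e2 : inner ℂ (f x) ((p - f) x) = (0 : ℂ) := by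
    rw [hkd_inner hf]
    have : f ((p - f) x) = 0 := by
      show f (p x - f x) = 0
      rw [map_sub, hkd_app hfp, hkd_app_sq hf, sub_self]
    rw [this, inner_zero_right]
  rw [e1]
  have h := norm_add_sq (𝕜 := ℂ) (f x) ((p - f) x)
  rw [e2] at h
  simpa using h

section comm

variable {N : VonNeumannAlgebra H} (hN : ∀ x ∈ N, ∀ y ∈ N, x * y = y * x)

include hN

theorem PJ.mul {p q : H →L[ℂ] H} (hp : PJ N p) (hq : PJ N q) : PJ N (p * q) := by
  have hc := hN p hp.1 q hq.1
  refine ⟨mul_mem hp.1 hq.1, ?_, ?_⟩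
  · show (p * q) * (p * q) = p * q
    calc _ = p * (q * p) * q := by simp only [mul_assoc]
      _ = (p * p) * (q * q) := by rw [← hc]; simp only [mul_assoc]
      _ = _ := by rw [hp.2.isIdempotentElem.eq, hq.2.isIdempotentElem.eq]
  · show star (p * q) = p * q
    rw [star_mul, hp.2.isSelfAdjoint.star_eq, hq.2.isSelfAdjoint.star_eq, hc]

omit hN in
theorem PJ.one_sub' {p : H →L[ℂ] H} (hp : PJ N p) : PJ N (1 - p) :=
  ⟨sub_mem (one_mem N) hp.1, hp.2.one_sub⟩

theorem PJ.sub' {p q : H →L[ℂ] H} (hp : PJ N p) (hq : PJ N q) (h : p * q = q) :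
    PJ N (p - q) := by
  have e : p - q = p * (1 - q) := by rw [mul_sub, mul_one, h]
  rw [e]
  exact hp.mul hN hq.one_sub'

theorem PJ.sup' {p q : H →L[ℂ] H} (hp : PJ N p) (hq : PJ N q) : PJ N (p + q - p * q) := by
  have e : p + q - p * q = 1 - (1 - p) * (1 - q) := by
    rw [sub_mul, one_mul, mul_sub, mul_one]; abel
  rw [e]
  exact (hp.one_sub'.mul hN hq.one_sub').one_sub'

theorem PJ.add' {p q : H →L[ℂ] H} (hp : PJ N p) (hq : PJ N q) (h : p * q = 0) :
    PJ N (p + q) := by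
  have := hp.sup' hN hq
  rwa [h, sub_zero] at this

/-- splitting a projection in two parts, neither of which carries more than two thirds of the
mass of a vector -/
theorem hkd_split (p : H →L[ℂ] H) (hp : PJ N p) (ξ : H)
    (hfaith : ∀ q, PJ N q → p * q = q → q ξ = 0 → q = 0)
    (hno : ∀ q, PJ N q → p * q = q → q ≠ 0 → ∃ r, PJ N r ∧ q * r = r ∧ r ≠ 0 ∧ r ≠ q) :
    ∃ f, PJ N f ∧ p * f = f ∧ ‖f ξ‖ ^ 2 ≤ 2 / 3 * ‖p ξ‖ ^ 2 ∧
      ‖(p - f) ξ‖ ^ 2 ≤ 2 / 3 * ‖p ξ‖ ^ 2 := by
  by_contra hcon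
  push Not at hcon
  set a := ‖p ξ‖ ^ 2 with ha
  have ha0 : 0 ≤ a := by positivity
  have ha1 : 0 < a := by
    rcases ha0.lt_or_eq with h | h
    · exact h
    · exfalso
      have h0 : PJ N 0 := ⟨zero_mem N, ⟨by show (0 : H →L[ℂ] H) * 0 = 0; simp, by
        show star (0 : H →L[ℂ] H) = 0; simp⟩⟩
      have h1 := hcon 0 h0 (mul_zero p) (by rw [← h]; simp)
      rw [sub_zero, ← ha, ← h] at h1
      simp at h1
  -- small parts
  let S : Set (H →L[ℂ] H) := {f | PJ N f ∧ p * f = f ∧ ‖f ξ‖ ^ 2 ≤ 2 / 3 * a}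
  have hS : ∀ f ∈ S, ‖f ξ‖ ^ 2 < a / 3 := by
    rintro f ⟨h1, h2, h3⟩
    have h4 := hcon f h1 h2 h3
    have h5 := hkd_pyth hp.2 h1.2 h2 ξ
    rw [← ha] at h5
    linarith
  have hSadd : ∀ f ∈ S, ∀ g ∈ S, f + g - f * g ∈ S := by
    rintro f hf g hg
    obtain ⟨h1, h2, h3⟩ := hf
    obtain ⟨k1, k2, k3⟩ := hg
    have hfg := h1.sup' hN k1
    refine ⟨hfg, ?_, ?_⟩
    · rw [mul_sub, mul_add, h2, k2, ← mul_assoc, h2]
    · have e1 : (f + g - f * g) * f = f := by
        have hc := hN g k1.1 f h1.1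
        rw [sub_mul, add_mul, h1.2.isIdempotentElem.eq, mul_assoc f g f, hc, ← mul_assoc,
          h1.2.isIdempotentElem.eq]
        abel
      have e2 := hkd_pyth hfg.2 h1.2 e1 ξ
      have e3 : (f + g - f * g - f) = (1 - f) * g := by rw [sub_mul, one_mul]; abel
      have e4 : ‖(f + g - f * g - f) ξ‖ ≤ ‖g ξ‖ := by
        rw [e3]
        calc _ = ‖(1 - f) (g ξ)‖ := rfl
          _ ≤ ‖(1 - f : H →L[ℂ] H)‖ * ‖g ξ‖ := ContinuousLinearMap.le_opNorm _ _
          _ ≤ 1 * ‖g ξ‖ := by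
              gcongr
              exact IsStarProjection.norm_le _ h1.2.one_sub
          _ = _ := one_mul _
      have e5 : ‖(f + g - f * g - f) ξ‖ ^ 2 ≤ ‖g ξ‖ ^ 2 := pow_le_pow_left₀ (norm_nonneg _) e4 2
      have e6 := hS f ⟨h1, h2, h3⟩
      have e7 := hS g ⟨k1, k2, k3⟩
      rw [e2]
      linarith
  have hSmono : ∀ f ∈ S, ∀ g ∈ S, ‖g ξ‖ ^ 2 ≤ ‖(f + g - f * g) ξ‖ ^ 2 := by
    intro f hf g hg
    have hfg := (hf.1).sup' hN hg.1
    have e1 : (f + g - f * g) * g = g := by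
      rw [sub_mul, add_mul, hg.1.2.isIdempotentElem.eq, mul_assoc f g g,
        hg.1.2.isIdempotentElem.eq]
      abel
    have e2 := hkd_pyth hfg.2 hg.1.2 e1 ξ
    have : 0 ≤ ‖(f + g - f * g - g) ξ‖ ^ 2 := by positivity
    linarith
  have h0S : (0 : H →L[ℂ] H) ∈ S := by
    refine ⟨⟨zero_mem N, ⟨by show (0 : H →L[ℂ] H) * 0 = 0; simp, by
        show star (0 : H →L[ℂ] H) = 0; simp⟩⟩, mul_zero p, ?_⟩
    simp only [zero_apply, norm_zero]
    linarith [ha0]
  set V : Set ℝ := (fun f : H →L[ℂ] H => ‖f ξ‖ ^ 2) '' S with hV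
  have hVb : BddAbove V := ⟨a / 3, by rintro _ ⟨f, hf, rfl⟩; exact (hS f hf).le⟩
  have hVn : V.Nonempty := ⟨_, ⟨0, h0S, rfl⟩⟩
  set s := sSup V with hs
  have hg : ∀ n : ℕ, ∃ g ∈ S, s - 1 / ((n : ℝ) + 1) < ‖g ξ‖ ^ 2 := by
    intro n
    have h1 : s - 1 / ((n : ℝ) + 1) < s := by
      have : (0 : ℝ) < 1 / ((n : ℝ) + 1) := by positivity
      linarith
    obtain ⟨_, ⟨g, hg, rfl⟩, h2⟩ := exists_lt_of_lt_csSup hVn h1
    exact ⟨g, hg, h2⟩
  choose g hg1 hg2 using hg
  let F : ℕ → H →L[ℂ] H := fun n => Nat.rec (g 0) (fun n f => f + g (n + 1) - f * g (n + 1)) n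
  have hF0 : F 0 = g 0 := rfl
  have hFs : ∀ n, F (n + 1) = F n + g (n + 1) - F n * g (n + 1) := fun n => rfl
  have hFS : ∀ n, F n ∈ S := by
    intro n
    induction n with
    | zero => exact hg1 0
    | succ n ih => rw [hFs]; exact hSadd _ ih _ (hg1 _)
  have hFg : ∀ n, ‖g n ξ‖ ^ 2 ≤ ‖F n ξ‖ ^ 2 := by
    intro n
    cases n with
    | zero => exact le_rfl
    | succ n => rw [hFs]; exact hSmono _ (hFS n) _ (hg1 _)
  have hFF : ∀ n, F n * F (n + 1) = F n := by
    intro n
    rw [hFs, mul_sub, mul_add, ← mul_assoc, (hFS n).1.2.isIdempotentElem.eq]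
    abel
  have hqPJ : ∀ n, PJ N (p - F n) := fun n => hp.sub' hN (hFS n).1 (hFS n).2.1
  obtain ⟨Q, hQ, hQlim, hQq⟩ := hkd_lim N (fun n => p - F n) hqPJ (fun n => by
    have e1 : F n * p = F n := by rw [hN _ (hFS n).1.1 _ hp.1]; exact (hFS n).2.1
    show (p - F n) * (p - F (n + 1)) = p - F (n + 1)
    rw [mul_sub, sub_mul, sub_mul, hp.2.isIdempotentElem.eq, (hFS (n + 1)).2.1, e1, hFF]
    abel)
  have hpQ : p * Q = Q := by
    have := hQq 0
    rw [← this, ← mul_assoc, mul_sub, hp.2.isIdempotentElem.eq, (hFS 0).2.1]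
  have hf : PJ N (p - Q) := hp.sub' hN hQ hpQ
  have hpf : p * (p - Q) = p - Q := by rw [mul_sub, hp.2.isIdempotentElem.eq, hpQ]
  have hlim : Tendsto (fun n => ‖F n ξ‖ ^ 2) atTop (𝓝 (‖(p - Q) ξ‖ ^ 2)) := by
    have h1 : Tendsto (fun n => F n ξ) atTop (𝓝 ((p - Q) ξ)) := by
      have h2 : (fun n => F n ξ) = fun n => p ξ - (p - F n) ξ := by
        funext n
        show F n ξ = p ξ - (p ξ - F n ξ)
        abel
      rw [h2]
      exact tendsto_const_nhds.sub (hQlim ξ)
    exact (h1.norm).pow 2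
  have hfs : s ≤ ‖(p - Q) ξ‖ ^ 2 := by
    have h1 : Tendsto (fun n : ℕ => s - 1 / ((n : ℝ) + 1)) atTop (𝓝 (s - 0)) :=
      tendsto_const_nhds.sub tendsto_one_div_add_atTop_nhds_zero_nat
    rw [sub_zero] at h1
    exact le_of_tendsto_of_tendsto' h1 hlim fun n => ((hg2 n).trans_le (hFg n)).le
  have hfS : p - Q ∈ S := by
    refine ⟨hf, hpf, ?_⟩
    refine le_of_tendsto' hlim fun n => ?_
    have := hS _ (hFS n)
    linarith
  have hbig : 0 < ‖Q ξ‖ ^ 2 := by
    have h1 := hkd_pyth hp.2 hf.2 hpf ξ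
    rw [sub_sub_cancel, ← ha] at h1
    have h2 := hS _ hfS
    linarith
  have hQ0 : Q ≠ 0 := by
    intro h
    rw [h] at hbig
    simp at hbig
  -- a further small part gives a contradiction
  have key : ∀ r, PJ N r → Q * r = r → r ≠ 0 → 2 / 3 * a < ‖r ξ‖ ^ 2 := by
    intro r hr hQr hr0
    by_contra hle
    push Not at hle
    have hpr : p * r = r := by rw [← hQr, ← mul_assoc, hpQ]
    have hrS : r ∈ S := ⟨hr, hpr, hle⟩
    have h1 := hSadd _ hfS _ hrS
    have h2 : (p - Q) * r = 0 := by rw [sub_mul, hpr, hQr, sub_self]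
    rw [h2, sub_zero] at h1
    have h3 : ‖(p - Q + r) ξ‖ ^ 2 ≤ s := le_csSup hVb ⟨_, h1, rfl⟩
    have h4 : (p - Q + r) * (p - Q) = p - Q := by
      have e : r * (p - Q) = 0 := by rw [hN _ hr.1 _ hf.1, h2]
      rw [add_mul, e, add_zero, hf.2.isIdempotentElem.eq]
    have h5 := hkd_pyth h1.1.2 hf.2 h4 ξ
    rw [add_sub_cancel_left] at h5
    have h6 : 0 < ‖r ξ‖ ^ 2 := by
      have : r ξ ≠ 0 := fun h => hr0 (hfaith r hr hpr h)
      positivity
    linarith
  obtain ⟨r, hr, hQr, hr0, hrQ⟩ := hno Q hQ hpQ hQ0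
  have hr' : PJ N (Q - r) := hQ.sub' hN hr hQr
  have hQr' : Q * (Q - r) = Q - r := by rw [mul_sub, hQ.2.isIdempotentElem.eq, hQr]
  have h1 := key r hr hQr hr0
  have h2 := key (Q - r) hr' hQr' (fun h => hrQ (sub_eq_zero.mp h).symm)
  have h3 := hkd_pyth hQ.2 hr.2 hQr ξ
  have h4 := hkd_pyth hp.2 hQ.2 hpQ ξ
  have h5 : 0 ≤ ‖(p - Q) ξ‖ ^ 2 := by positivity
  linarith

end comm

end Pool.Agent.HK
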